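import Mathlib

set_option autoImplicit false

namespace Pool.Agent.Results.MP_7b3742_al.Counterexample

/-- `g` is an affine automorphism of the boundary of the `d`-ary tree. -/
def IsAffine {d : ℕ} (g : Equiv.Perm (ℕ → ZMod d)) : Prop :=
  ∃ (A : ℕ → ℕ → ZMod d) (b : ℕ → ZMod d), (∀ i, IsUnit (A i i)) ∧
    ∀ x j, g x j = b j + ∑ i ∈ Finset.range (j + 1), x i * A i j

/-- The state of `g` at the word `v`, as a map of the boundary. -/
def state {X : Type*} (g : (ℕ → X) → ℕ → X) : List X → (ℕ → X) → ℕ → X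
  | [] => g
  | x :: v => state (fun y j => g (fun i => Nat.casesOn i x y) (j + 1)) v

/-- The group generated by the states of `g`. -/
def autGroup {X : Type*} (g : Equiv.Perm (ℕ → X)) : Subgroup (Equiv.Perm (ℕ → X)) :=
  Subgroup.closure {h | ∃ v, ⇑h = state g v}

/-- The shift action of `L` on finitely supported functions `L → M`. -/
noncomputable def shift (L M : Type) [AddCommGroup L] [AddCommGroup M] :
    Multiplicative L →* MulAut (Multiplicative (L →₀ M)) :=
  MonoidHom.mk' (fun a => AddEquiv.toMultiplicative (Finsupp.domCongr (Equiv.addLeft a.toAdd)))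
    fun a b => MulEquiv.ext fun f => congrArg Multiplicative.ofAdd (Finsupp.ext fun x =>
      congrArg f.toAdd (show -(a.toAdd + b.toAdd) + x = -b.toAdd + (-a.toAdd + x) by abel))

/-- The restricted wreath product of `(ℤ/d)^k` by `ℤ^l`. -/
abbrev Wr (d k l : ℕ) : Type :=
  Multiplicative ((Fin l → ℤ) →₀ (Fin k → ZMod d)) ⋊[shift (Fin l → ℤ) (Fin k → ZMod d)]
    Multiplicative (Fin l → ℤ)

section
variable {R : Type} [AddCommGroup R]

def fw (ε : ℕ) (c₀ c₁ : R) (y : ℕ → R) : ℕ → R
  | 0 => y 0 + c₀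
  | 1 => y 1 + c₁
  | j + 2 => y (j + 2) + if (j + ε) % 2 = 0 then y j else 0

def bw (ε : ℕ) (c₀ c₁ : R) (z : ℕ → R) : ℕ → R
  | 0 => z 0 - c₀
  | 1 => z 1 - c₁
  | j + 2 => z (j + 2) - if (j + ε) % 2 = 0 then bw ε c₀ c₁ z j else 0

def g (ε : ℕ) (c₀ c₁ : R) : Equiv.Perm (ℕ → R) where
  toFun := fw ε c₀ c₁
  invFun := bw ε c₀ c₁
  left_inv y := funext fun j => by
    induction j using Nat.twoStepInduction with
    | zero => simp [fw, bw]
    | one => simp [fw, bw]
    | more j ih _ => simp [fw, bw, ih]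
  right_inv z := funext fun j => by
    match j with
    | 0 => simp [fw, bw]
    | 1 => simp [fw, bw]
    | j + 2 => simp [fw, bw]

theorem g_apply (ε : ℕ) (c₀ c₁ : R) (y : ℕ → R) : g ε c₀ c₁ y = fw ε c₀ c₁ y := rfl

theorem state_cons (ε : ℕ) (c₀ c₁ x : R) (v : List R) : state (g ε c₀ c₁) (x :: v) =
    state (g ((ε + 1) % 2) c₁ (if ε % 2 = 0 then x else 0)) v := by
  rw [state]
  congr 1
  funext y j
  match j with
  | 0 => rfl
  | 1 => simp [g_apply, fw]
  | j + 2 =>
    simp only [g_apply, fw]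
    rw [show (j + 1 + ε) % 2 = (j + (ε + 1) % 2) % 2 by omega]

theorem state_g (v : List R) (ε : ℕ) (hε : ε < 2) (c₀ c₁ : R) :
    ∃ p : Fin 2 × R × R, ⇑(g p.1 p.2.1 p.2.2) = state (g ε c₀ c₁) v := by
  induction v generalizing ε c₀ c₁ with
  | nil => exact ⟨(⟨ε, hε⟩, c₀, c₁), rfl⟩
  | cons x v ih =>
    rw [state_cons]
    exact ih _ (Nat.mod_lt _ two_pos) _ _

theorem g_add (ε : ℕ) (y z : ℕ → R) : g ε 0 0 (y + z) = g ε 0 0 y + g ε 0 0 z := by
  funext j
  match j with
  | 0 => simp [g_apply, fw]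
  | 1 => simp [g_apply, fw]
  | j + 2 =>
    simp only [g_apply, fw, Pi.add_apply]
    split_ifs <;> abel

theorem g_pow_add (ε n : ℕ) (y z : ℕ → R) :
    (g ε 0 0 ^ n) (y + z) = (g ε 0 0 ^ n) y + (g ε 0 0 ^ n) z := by
  induction n with
  | zero => rfl
  | succ n ih => simp only [pow_succ', Equiv.Perm.mul_apply, ih, g_add]

theorem g_pow_single (ε : ℕ) (hε : ε < 2) (c : R) (n : ℕ) :
    (g ε 0 0 ^ n) (Pi.single ε c) (2 * n + ε) = c ∧
    ∀ j, 2 * n + ε < j ∨ (j + ε) % 2 = 1 → (g ε 0 0 ^ n) (Pi.single ε c) j = 0 := by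
  induction n with
  | zero => exact ⟨by simp, fun j hj => Pi.single_eq_of_ne (by omega) _⟩
  | succ n ih =>
    simp only [pow_succ', Equiv.Perm.mul_apply, g_apply]
    refine ⟨?_, fun j hj => ?_⟩
    · rw [show 2 * (n + 1) + ε = 2 * n + ε + 2 by ring, fw, ih.1, ih.2 _ (by omega),
        if_pos (by omega), zero_add]
    · match j with
      | 0 => rw [fw, ih.2 _ (by omega), add_zero]
      | 1 => rw [fw, ih.2 _ (by omega), add_zero]
      | j + 2 => rw [fw, ih.2 _ (by omega), ih.2 _ (by omega), ite_self, add_zero]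

end

theorem wr {d k l : ℕ} (hd : d ≠ 0) (x y : Wr d k l) (h : Commute x y) (hx : x ^ d ≠ 1)
    (hy : y ^ d = 1) : y = 1 := by
  have h1 : y.right = 1 := by
    have : y.right ^ d = 1 := by
      rw [← SemidirectProduct.rightHom_eq_right, ← map_pow, hy, map_one]
    exact (pow_eq_one_iff_left hd).1 this
  have h2 : x.right.toAdd ≠ 0 := fun e => hx (by
    rw [← SemidirectProduct.inl_left_mul_inr_right x, show x.right = 1 from e, map_one, mul_one,
      ← map_pow, show x.left ^ d = 1 from congrArg Multiplicative.ofAdd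
        (show d • x.left.toAdd = 0 from Finsupp.ext fun s => funext fun i => by simp), map_one])
  have h3 := congrArg SemidirectProduct.left h.eq
  simp only [SemidirectProduct.mul_left, h1, map_one, MulAut.one_apply] at h3
  rw [mul_comm y.left, mul_right_inj] at h3
  have h4 : ∀ s, y.left.toAdd (-x.right.toAdd + s) = y.left.toAdd s := fun s =>
    DFunLike.congr_fun (congrArg Multiplicative.toAdd h3) s
  refine SemidirectProduct.ext (congrArg Multiplicative.ofAdd
    (show y.left.toAdd = 0 from Finsupp.ext fun s => ?_)) h1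
  by_contra h5
  refine Set.infinite_of_injective_forall_mem (f := fun n : ℕ => n • -x.right.toAdd + s)
    (s := y.left.toAdd.support) (fun m n e => ?_) (fun n => ?_) (Finset.finite_toSet _)
  · exact Nat.cast_injective (R := ℤ) (smul_left_injective ℤ (neg_ne_zero.2 h2)
      (by simpa using add_right_cancel e))
  · rw [Finset.mem_coe, Finsupp.mem_support_iff]
    induction n with
    | zero => simpa using h5
    | succ n ih => rwa [succ_nsmul', add_assoc, h4]

/-- For every alphabet size there is a finite-state affine automorphism whose automaton group is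
infinite and is not a finite extension of one of the wreath products. -/
theorem result (d : ℕ) (hd : 2 ≤ d) : ∃ g : Equiv.Perm (ℕ → ZMod d), IsAffine g ∧
    (Set.range (state g)).Finite ∧ Infinite (autGroup g) ∧
    ∀ k l, ∀ N : Subgroup (autGroup g), N.Normal → N.FiniteIndex → IsEmpty (N ≃* Wr d k l) := by
  have : Fact (1 < d) := ⟨hd⟩
  have h0 : ∀ ε < 2, ∀ n ≠ 0, (g ε (0 : ZMod d) 0 ^ n) (Pi.single ε 1) ≠ Pi.single ε 1 :=
    fun ε hε n hn e => by
      have := (g_pow_single ε hε (1 : ZMod d) n).1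
      rw [e, Pi.single_eq_of_ne (by omega)] at this
      exact zero_ne_one this
  let a : autGroup (g 0 (0 : ZMod d) 0) := ⟨g 0 0 0, Subgroup.subset_closure ⟨[], rfl⟩⟩
  have ha : ∀ n ≠ 0, a ^ n ≠ 1 := fun n hn e =>
    h0 0 two_pos n hn (by rw [show g 0 (0 : ZMod d) 0 ^ n = 1 from congrArg Subtype.val e]; rfl)
  refine ⟨g 0 0 0, ⟨fun i j => if i = j then 1 else if i + 2 = j ∧ i % 2 = 0 then 1 else 0,
    0, by simp, fun x j => ?_⟩, ?_, ?_, fun k l N _ _ => ⟨fun φ => ?_⟩⟩
  · match j with
    | 0 => simp [g_apply, fw]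
    | 1 => simp [g_apply, fw]
    | j + 2 =>
      rw [Finset.sum_range_succ, Finset.sum_range_succ, Finset.sum_range_succ, Finset.sum_eq_zero]
      · simp [g_apply, fw, add_comm]
      · intro i hi
        have := Finset.mem_range.1 hi
        simp only [if_neg (show i ≠ j + 2 by omega),
          if_neg (show ¬ (i + 2 = j + 2 ∧ i % 2 = 0) by omega), mul_zero]
  · refine (Set.finite_range fun p : Fin 2 × ZMod d × ZMod d => ⇑(g p.1 p.2.1 p.2.2)).subset ?_
    rintro _ ⟨v, rfl⟩
    exact state_g v 0 two_pos 0 0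
  · refine Infinite.of_injective (a ^ ·) (injective_pow_iff_not_isOfFinOrder.2 fun h => ?_)
    obtain ⟨n, hn, h⟩ := isOfFinOrder_iff_pow_eq_one.1 h
    exact ha n hn.ne' h
  · let b : ZMod d → autGroup (g 0 (0 : ZMod d) 0) := fun c =>
      ⟨g 1 0 c, Subgroup.subset_closure ⟨[c], (state_cons 0 0 0 c []).symm⟩⟩
    let n := N.index
    have hn : n ≠ 0 := Subgroup.FiniteIndex.index_ne_zero
    let t := b 1 * (b 0)⁻¹
    have ht : ∀ y, t.1 y = y + Pi.single 1 1 := fun y => by
      obtain ⟨y, rfl⟩ := (g 1 0 0).surjective y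
      change g 1 0 1 ((g 1 0 0).symm (g 1 0 0 y)) = _
      rw [Equiv.symm_apply_apply]
      funext j
      match j with
      | 0 => simp [g_apply, fw]
      | 1 => simp [g_apply, fw]
      | j + 2 => simp [g_apply, fw]
    let y : N := ⟨b 0 ^ n * (t * (b 0 ^ n)⁻¹ * t⁻¹), mul_mem (N.pow_index_mem _)
      (Subgroup.Normal.conj_mem ‹_› _ (inv_mem (N.pow_index_mem _)) t)⟩
    let w : ℕ → ZMod d := (g 1 0 0 ^ n) (Pi.single 1 1) - Pi.single 1 1
    have hy : ∀ z, y.1.1 z = z + w := fun z => by
      obtain ⟨z, rfl⟩ := t.1.surjective z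
      change (g 1 0 0 ^ n) (t.1 ((g 1 0 0 ^ n).symm (t.1.symm (t.1 z)))) = _
      rw [Equiv.symm_apply_apply, ht, ht, g_pow_add, Equiv.apply_symm_apply]
      simp only [w]
      abel
    have hw : g 0 0 0 w = w := by
      funext j
      match j with
      | 0 => simp [g_apply, fw]
      | 1 => simp [g_apply, fw]
      | j + 2 =>
        simp only [g_apply, fw, add_eq_left, ite_eq_right_iff]
        intro hj
        simp only [w, Pi.sub_apply]
        rw [(g_pow_single 1 one_lt_two 1 n).2 j (by omega), Pi.single_eq_of_ne (by omega), sub_zero]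
    have hc : Commute a y.1 := Subtype.ext (Equiv.ext fun z => by
      change g 0 0 0 (y.1.1 z) = y.1.1 (g 0 0 0 z)
      rw [hy, hy, g_add, hw])
    have h1 : ∀ m z, (y.1.1 ^ m) z = z + m • w := fun m z => by
      induction m with
      | zero => simp
      | succ m ih => rw [pow_succ', Equiv.Perm.mul_apply, hy, ih, succ_nsmul, add_assoc]
    have h2 := wr (by omega) (φ ⟨a ^ n, N.pow_index_mem a⟩) (φ y)
      (Commute.map (show _ = _ from Subtype.ext (hc.pow_left n).eq) φ) (fun e => ha (n * d) (by positivity) (by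
        rw [← map_pow, map_eq_one_iff φ φ.injective] at e
        rw [pow_mul]
        exact congrArg Subtype.val e)) (by
        rw [← map_pow, map_eq_one_iff φ φ.injective]
        refine Subtype.ext (Subtype.ext (Equiv.ext fun z => (h1 d z).trans ?_))
        rw [show d • w = 0 from funext fun i => by simp, add_zero]
        rfl)
    have h3 := hy 0
    rw [(map_eq_one_iff φ φ.injective).1 h2, zero_add] at h3
    exact h0 1 one_lt_two n hn (sub_eq_zero.1 h3.symm)

end Pool.Agent.Results.MP_7b3742_al.Counterexample
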